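import Pool.Agent.Helper53.FM.Defs
import Pool.Agent.Helper51.FB.FillerSelect

/-!
# Project FM: random subset with balanced coverage (FM-A1)
-/

set_option autoImplicit false

namespace Pool.Agent.Helper28.FM

open Finset Function
open Pool.Agent.Helper53.WR
open Pool.Agent.Helper48.FB
open Pool.Agent.Helper51.FB (Aff aff_sum aff_const_mul aff_prod Pr mem_Pr aff_pairs aff_set
  prod_le_exp repF_le)

/-- The set of the first elements of the balanced pairs with sum `n`. -/
def Pb (n : ℕ) : Finset ℕ := (range n).filter (fun x => x < n - x ∧ n ≤ 4 * x)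

theorem mem_Pb {n x : ℕ} : x ∈ Pb n ↔ x < n - x ∧ n ≤ 4 * x := by
  unfold Pb
  rw [Finset.mem_filter, Finset.mem_range]
  omega

/-- The functional of the balanced pairs with sum `n`. -/
theorem aff_pairsb (n : ℕ) (c : ℝ) (x : ℕ) (p : ℝ) :
    Aff x p (fun ω => ∏ i ∈ Pb n, (1 + c * (ω i * ω (n - i)))) := by
  refine aff_prod (Pb n) (fun i ω => 1 + c * (ω i * ω (n - i))) x p
    (if x < n - x then x else n - x) ?_ ?_
  · intro i hi hne ω v
    rw [mem_Pb] at hi
    replace hi := hi.1
    have h1 : i ≠ x := by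
      intro h
      subst h
      rw [if_pos hi] at hne
      exact hne rfl
    have h2 : n - i ≠ x := by
      intro h
      subst h
      rw [if_neg (by omega)] at hne
      omega
    show 1 + c * (update ω x v i * update ω x v (n - i)) = 1 + c * (ω i * ω (n - i))
    rw [update_of_ne h1, update_of_ne h2]
  · intro hi
    rw [mem_Pb] at hi
    replace hi := hi.1
    generalize (if x < n - x then x else n - x) = i at hi
    intro ω
    show 1 + c * (update ω x p i * update ω x p (n - i))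
      = (1 - p) * (1 + c * (update ω x 0 i * update ω x 0 (n - i)))
        + p * (1 + c * (update ω x 1 i * update ω x 1 (n - i)))
    by_cases h1 : i = x
    · have h2 : n - i ≠ x := by omega
      subst h1
      simp only [update_self, update_of_ne h2]
      ring
    · by_cases h2 : n - i = x
      · subst h2
        simp only [update_self, update_of_ne h1]
        ring
      · simp only [update_of_ne h1, update_of_ne h2]
        ring

/-- The potential. -/
noncomputable def Phi (Cov Rep : Finset ℕ) (s : ℕ) {J : Type} (fam : Finset J)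
    (Y : J → Finset ℕ) (A : J → ℝ) (y : J → ℕ) (ω : ℕ → ℝ) : ℝ :=
  ∑ n ∈ Cov, ∏ i ∈ Pb n, (1 + (-1) * (ω i * ω (n - i)))
  + ∑ n ∈ Rep, (Real.exp 1 ^ s)⁻¹ * ∏ i ∈ Pr n, (1 + (Real.exp 1 - 1) * (ω i * ω (n - i)))
  + ∑ j ∈ fam, (A j ^ y j)⁻¹ * ∏ i ∈ Y j, (1 + (A j - 1) * ω i)

theorem aff_Phi (Cov Rep : Finset ℕ) (s : ℕ) {J : Type} (fam : Finset J)
    (Y : J → Finset ℕ) (A : J → ℝ) (y : J → ℕ) (x : ℕ) (p : ℝ) :
    Aff x p (Phi Cov Rep s fam Y A y) := by
  have h1 := aff_sum Cov (fun n ω => ∏ i ∈ Pb n, (1 + (-1) * (ω i * ω (n - i)))) x p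
    (fun n _ => aff_pairsb n (-1) x p)
  have h2 := aff_sum Rep (fun n ω => (Real.exp 1 ^ s)⁻¹ *
    ∏ i ∈ Pr n, (1 + (Real.exp 1 - 1) * (ω i * ω (n - i)))) x p
    (fun n _ => aff_const_mul _ _ x p (aff_pairs n (Real.exp 1 - 1) x p))
  have h3 := aff_sum fam (fun j ω => (A j ^ y j)⁻¹ * ∏ i ∈ Y j, (1 + (A j - 1) * ω i)) x p
    (fun j _ => aff_const_mul _ _ x p (aff_set (Y j) (A j - 1) x p))
  intro ω
  have a1 := h1 ω
  have a2 := h2 ω
  have a3 := h3 ω
  unfold Phi
  simp only at a1 a2 a3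
  rw [a1, a2, a3]
  ring

/-- FM-A1 (random subset, balanced coverage). -/
theorem filler_select_bal (X : Finset ℕ) (p : ℕ → ℝ) (hp0 : ∀ x, 0 ≤ p x) (hp1 : ∀ x, p x ≤ 1)
    (hpX : ∀ x, x ∉ X → p x = 0) (Cov Rep : Finset ℕ) (s : ℕ) {J : Type} (fam : Finset J)
    (Y : J → Finset ℕ) (A : J → ℝ) (y : J → ℕ) (hA : ∀ j ∈ fam, 1 ≤ A j)
    (hsum : ∑ n ∈ Cov, Real.exp (-(∑ x ∈ (range n).filter (fun x => x < n - x ∧ n ≤ 4 * x),
          p x * p (n - x)))
      + ∑ n ∈ Rep, Real.exp (Real.exp 1 *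
          ∑ x ∈ (range n).filter (fun x => x < n - x), p x * p (n - x)) / Real.exp 1 ^ s
      + ∑ j ∈ fam, Real.exp (A j * ∑ x ∈ Y j, p x) / A j ^ y j < 1) :
    ∃ R ⊆ X, (∀ x ∈ X, p x = 1 → x ∈ R) ∧
      (∀ n ∈ Cov, ∃ x ∈ R, ∃ z ∈ R, x + z = n ∧ n ≤ 4 * x ∧ n ≤ 4 * z) ∧
      (∀ n ∈ Rep, repF R n ≤ 2 * s) ∧ ∀ j ∈ fam, (R ∩ Y j).card < y j := by
  have he1 : 1 ≤ Real.exp 1 := Real.one_le_exp (by norm_num)
  have hpp0 : ∀ a b, 0 ≤ p a * p b := fun a b => mul_nonneg (hp0 a) (hp0 b)
  have hpp1 : ∀ a b, p a * p b ≤ 1 := fun a b => mul_le_one₀ (hp1 a) (hp0 b) (hp1 b)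
  -- the potential at `p`
  have hlt : Phi Cov Rep s fam Y A y p < 1 := by
    refine lt_of_le_of_lt ?_ hsum
    unfold Phi
    refine add_le_add (add_le_add ?_ ?_) ?_
    · refine Finset.sum_le_sum fun n _ => ?_
      refine (prod_le_exp (Pb n) (fun i => (-1) * (p i * p (n - i))) ?_).trans ?_
      · intro i _
        have := hpp1 i (n - i)
        linarith
      · rw [← Finset.mul_sum]
        exact le_of_eq (by unfold Pb; congr 1; ring)
    · refine Finset.sum_le_sum fun n _ => ?_
      rw [div_eq_inv_mul]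
      refine mul_le_mul_of_nonneg_left ?_ (by positivity)
      refine (prod_le_exp (Pr n) (fun i => (Real.exp 1 - 1) * (p i * p (n - i))) ?_).trans ?_
      · intro i _
        have := mul_nonneg (sub_nonneg.2 he1) (hpp0 i (n - i))
        linarith
      · rw [← Finset.mul_sum]
        refine Real.exp_le_exp.2 ?_
        refine mul_le_mul_of_nonneg_right (by linarith) ?_
        exact Finset.sum_nonneg fun i _ => hpp0 i (n - i)
    · refine Finset.sum_le_sum fun j hj => ?_
      have hAj := hA j hj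
      have hA0 : 0 < A j := by linarith
      rw [div_eq_inv_mul]
      refine mul_le_mul_of_nonneg_left ?_ (by positivity)
      refine (prod_le_exp (Y j) (fun i => (A j - 1) * p i) ?_).trans ?_
      · intro i _
        have := mul_nonneg (sub_nonneg.2 hAj) (hp0 i)
        linarith
      · rw [← Finset.mul_sum]
        refine Real.exp_le_exp.2 ?_
        refine mul_le_mul_of_nonneg_right (by linarith) ?_
        exact Finset.sum_nonneg fun i _ => hp0 i
  obtain ⟨R, hRX, hR1, hR⟩ := Pool.Agent.Helper52.FB.exists_zero_one X p hp0 hp1 (Phi Cov Rep s fam Y A y)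
    (fun x _ ω => aff_Phi Cov Rep s fam Y A y x (p x) ω)
  set ω : ℕ → ℝ := fun x => if x ∈ R then 1 else 0 with hω
  have hωeq : (fun x => if x ∈ X then (if x ∈ R then (1 : ℝ) else 0) else p x) = ω := by
    funext x
    rw [hω]
    by_cases hx : x ∈ X
    · simp only [if_pos hx]
    · have : x ∉ R := fun h => hx (hRX h)
      simp only [if_neg hx, if_neg this, hpX x hx]
  rw [hωeq] at hR
  have hfin : Phi Cov Rep s fam Y A y ω < 1 := lt_of_le_of_lt hR hlt
  have hω0 : ∀ x, 0 ≤ ω x := by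
    intro x
    rw [hω]
    by_cases hx : x ∈ R
    · simp only [if_pos hx]; norm_num
    · simp only [if_neg hx]; exact le_refl 0
  have hω1 : ∀ x, ω x ≤ 1 := by
    intro x
    rw [hω]
    by_cases hx : x ∈ R
    · simp only [if_pos hx]; exact le_refl 1
    · simp only [if_neg hx]; norm_num
  have hww0 : ∀ a b, 0 ≤ ω a * ω b := fun a b => mul_nonneg (hω0 a) (hω0 b)
  have hww1 : ∀ a b, ω a * ω b ≤ 1 := fun a b => mul_le_one₀ (hω1 a) (hω0 b) (hω1 b)
  -- all terms are nonnegative
  have hC0 : ∀ n ∈ Cov, 0 ≤ ∏ i ∈ Pb n, (1 + (-1) * (ω i * ω (n - i))) := by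
    intro n _
    refine Finset.prod_nonneg fun i _ => ?_
    have := hww1 i (n - i)
    linarith
  have hE0 : ∀ n ∈ Rep, 0 ≤ (Real.exp 1 ^ s)⁻¹ *
      ∏ i ∈ Pr n, (1 + (Real.exp 1 - 1) * (ω i * ω (n - i))) := by
    intro n _
    refine mul_nonneg (by positivity) (Finset.prod_nonneg fun i _ => ?_)
    have := mul_nonneg (sub_nonneg.2 he1) (hww0 i (n - i))
    linarith
  have hF0 : ∀ j ∈ fam, 0 ≤ (A j ^ y j)⁻¹ * ∏ i ∈ Y j, (1 + (A j - 1) * ω i) := by
    intro j hj
    have hAj := hA j hj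
    have hA0 : 0 < A j := by linarith
    refine mul_nonneg (by positivity) (Finset.prod_nonneg fun i _ => ?_)
    have := mul_nonneg (sub_nonneg.2 hAj) (hω0 i)
    linarith
  have sC := Finset.sum_nonneg hC0
  have sE := Finset.sum_nonneg hE0
  have sF := Finset.sum_nonneg hF0
  unfold Phi at hfin
  refine ⟨R, hRX, hR1, ?_, ?_, ?_⟩
  · -- coverage
    intro n hn
    have h1 : ∏ i ∈ Pb n, (1 + (-1) * (ω i * ω (n - i))) < 1 := by
      have := Finset.single_le_sum hC0 hn
      linarith
    by_contra hcon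
    have h2 : ∏ i ∈ Pb n, (1 + (-1) * (ω i * ω (n - i))) = 1 := by
      refine Finset.prod_eq_one fun i hi => ?_
      rw [mem_Pb] at hi
      have hz : ω i * ω (n - i) = 0 := by
        rw [hω]
        by_cases h3 : i ∈ R
        · by_cases h4 : n - i ∈ R
          · exact absurd ⟨i, h3, n - i, h4, by omega, by omega, by omega⟩ hcon
          · simp only [if_neg h4, mul_zero]
        · simp only [if_neg h3, zero_mul]
      rw [hz]
      ring
    linarith
  · -- representations
    intro n hn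
    have h1 : (Real.exp 1 ^ s)⁻¹ * ∏ i ∈ Pr n, (1 + (Real.exp 1 - 1) * (ω i * ω (n - i))) < 1 := by
      have := Finset.single_le_sum hE0 hn
      linarith
    set P := (Pr n).filter (fun x => x ∈ R ∧ n - x ∈ R) with hP
    have h2 : ∏ i ∈ Pr n, (1 + (Real.exp 1 - 1) * (ω i * ω (n - i))) = Real.exp 1 ^ P.card := by
      rw [hP, ← Finset.prod_const, Finset.prod_filter]
      refine Finset.prod_congr rfl fun i _ => ?_
      rw [hω]
      by_cases h3 : i ∈ R
      · by_cases h4 : n - i ∈ R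
        · simp only [and_self, if_true, h3, h4]
          ring
        · simp only [h3, h4, and_false, if_false]
          ring
      · simp only [h3, false_and, if_false]
        ring
    rw [h2] at h1
    have h3 : P.card < s := by
      by_contra hge
      push Not at hge
      have h4 : Real.exp 1 ^ s ≤ Real.exp 1 ^ P.card := pow_le_pow_right₀ he1 hge
      have h5 : 0 < Real.exp 1 ^ s := by positivity
      have h6 : (Real.exp 1 ^ s)⁻¹ * Real.exp 1 ^ s = 1 := inv_mul_cancel₀ h5.ne'
      have h7 : (Real.exp 1 ^ s)⁻¹ * Real.exp 1 ^ s ≤ (Real.exp 1 ^ s)⁻¹ * Real.exp 1 ^ P.card :=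
        mul_le_mul_of_nonneg_left h4 (by positivity)
      linarith
    have := repF_le R n
    rw [← hP] at this
    omega
  · -- the family
    intro j hj
    have hAj := hA j hj
    have hA0 : 0 < A j := by linarith
    have h1 : (A j ^ y j)⁻¹ * ∏ i ∈ Y j, (1 + (A j - 1) * ω i) < 1 := by
      have := Finset.single_le_sum hF0 hj
      linarith
    have h2 : ∏ i ∈ Y j, (1 + (A j - 1) * ω i) = A j ^ (R ∩ Y j).card := by
      have h3 : R ∩ Y j = (Y j).filter (fun i => i ∈ R) := by
        ext i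
        rw [Finset.mem_inter, Finset.mem_filter]
        tauto
      rw [h3, ← Finset.prod_const, Finset.prod_filter]
      refine Finset.prod_congr rfl fun i _ => ?_
      rw [hω]
      by_cases h4 : i ∈ R
      · simp only [if_pos h4]
        ring
      · simp only [if_neg h4]
        ring
    rw [h2] at h1
    by_contra hge
    push Not at hge
    have h4 : A j ^ y j ≤ A j ^ (R ∩ Y j).card := pow_le_pow_right₀ hAj hge
    have h5 : 0 < A j ^ y j := by positivity
    have h6 : (A j ^ y j)⁻¹ * A j ^ y j = 1 := inv_mul_cancel₀ h5.ne'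
    have h7 : (A j ^ y j)⁻¹ * A j ^ y j ≤ (A j ^ y j)⁻¹ * A j ^ (R ∩ Y j).card :=
      mul_le_mul_of_nonneg_left h4 (by positivity)
    linarith

end Pool.Agent.Helper28.FM
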